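import Pool.Agent.Lib.MP_5ca50a_lc.NoInf

/-!
Context-free languages with condition `P_k` for some `k` are regular.
-/

set_option autoImplicit false

namespace Pool.Agent.Results.MP_5ca50a_lc.AllExponents

/-- Condition `P_k` of the problem file for the language `L`. -/
def ConditionP {α : Type} (k : ℕ) (L : Language α) : Prop :=
  ∀ x u y v z : List α, u ++ v ≠ [] →
    (∀ n : ℕ, 1 ≤ n →
      x ++ (List.replicate n u).flatten ++ y ++ (List.replicate n v).flatten ++ z ∈ L) →
    ∀ i j : ℕ,
      x ++ (List.replicate (k * i) u).flatten ++ y ++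
        (List.replicate (k * j) v).flatten ++ z ∈ L

theorem result (α : Type) [Finite α] (L : Language α) (hL : L.IsContextFree)
    (h : ∃ k : ℕ, 1 ≤ k ∧ ConditionP k L) : L.IsRegular := by
  obtain ⟨k, hk1, hk⟩ := h
  obtain ⟨k, rfl⟩ : ∃ k', k = k' + 1 := ⟨k - 1, by omega⟩
  have hP : MP5ca50a.CondP (k + 1) L := hk
  exact MP5ca50a.regular_of_condP hL hP

end Pool.Agent.Results.MP_5ca50a_lc.AllExponents
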